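import Pool.Agent.H71.ZD.Tower

/-!
# Skew products whose fibre degree exceeds the first dynamical degree of the base

Definitions (files `Pool/Agent/H71/ZD/Defs.lean`, `Segre.lean`, `Fin.lean`, `Tower.lean`):

* `PV k`: irreducible projective varieties over `k` (closure in `ℙ^ι` of a generic point `[s]`, with
  `s b = 1`, generating the function field `K`); `PV.IsPoint`, `Sends` (the rational map is defined
  at `p` with value `p'`), `IsOrbit`, `IsDense`; `StrongZDO X φ`: every nonempty basic open set
  contains a well-defined Zariski-dense orbit;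
* `prodP1 X`: the variety `X × ℙ¹` (Segre embedding, function field `K(t)`); `ptPV k`: the point;
* `IsSkew X φ Φ e`: `Φ` is the pull-back by a skew product over `f` with fibre degree `e`;
* `DynDegLT X φ e`: some iterate `f^r`, `r ≥ 1`, is given by forms of degree `< e^r`, that is,
  `λ₁(f) < e`;
* `Tower X₀ φ₀ X φ e`: `(X, f)` is the top of a tower of skew products over `(X₀, f₀)` with fibre
  degrees `λ₁(f₀) < e₁ < e₂ < ⋯ < e_m = e`, `e₁ ≥ 2`, `m ≥ 1`.
-/

set_option autoImplicit false

namespace Pool.Agent.Results.MP_1e7cf3_ag.LargeFibreDegree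

open Pool.Agent.H71.ZD

universe u

/-- Let `k` be a field algebraic over `ℚ` (for example `ℚ̄`).  If the conclusion of the strong
Zariski dense orbit conjecture holds for `(X₀, f₀)`, then it holds for all towers of rational skew
products over `(X₀, f₀)`, with fibres `ℙ¹`, whose fibre degrees satisfy `λ₁(f₀) < e₁ < ⋯ < e_m` and
`e₁ ≥ 2` (for `m = 1`: for every skew product of fibre degree `e ≥ 2`, `e > λ₁(f₀)`).  In
particular it holds for all towers over a point, that is, for the triangular rational self-maps of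
`(ℙ¹)^m` with degrees `2 ≤ e₁ < ⋯ < e_m`. -/
theorem result (k : Type u) [Field k] [CharZero k] [Algebra.IsAlgebraic ℚ k] :
    (∀ (X₀ : PV k) (φ₀ : X₀.K →ₐ[k] X₀.K), StrongZDO X₀ φ₀ →
      ∀ (X : PV k) (φ : X.K →ₐ[k] X.K) (e : ℕ), Tower X₀ φ₀ X φ e → StrongZDO X φ) ∧
    (∀ e, 2 ≤ e → DynDegLT (ptPV k) (AlgHom.id k k) e) ∧
    ∀ (X : PV k) (φ : X.K →ₐ[k] X.K) (e : ℕ), Tower (ptPV k) (AlgHom.id k k) X φ e →
      StrongZDO X φ :=
  ⟨fun _ _ hst _ _ _ h => (tower_strong hst h).1, fun _ he => ptPV_dyn k he,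
    fun _ _ _ h => (tower_strong (ptPV_strong k) h).1⟩

end Pool.Agent.Results.MP_1e7cf3_ag.LargeFibreDegree
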