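import Pool.Agent.H71.ZD.Conj

/-!
# It is enough to treat regular self-maps of affine varieties

Definitions (files `Pool/Agent/H71/ZD/Defs.lean`, `Affine.lean`, `Conj.lean`):

* `PV k`: irreducible projective varieties over `k` (closure in `ℙ^ι` of a generic point `[s]`, with
  `s b = 1`, generating the function field `K`); `PV.IsPoint`, `Sends` (the rational map is defined
  at `p` with value `p'`), `IsOrbit`, `IsDense`, `NoInvariants` (`k(X)^f = k`);
* `StrongZDO X φ`: every nonempty basic open set contains a well-defined dense orbit;
  `ClassicalZDO X φ`: there is a well-defined dense orbit;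
* `AV k`, `IsRegularMap`, `RegularZDO`: irreducible affine varieties over `k`, their dominant
  regular (polynomial) self-maps, existence of a `k`-point with dense orbit;
* `StrongConj k d`, `ClassicalConj k d`, `RegularConj k d`: the three conjectures over `k` in
  dimension `d`.
-/

set_option autoImplicit false

namespace Pool.Agent.Results.MP_1e7cf3_ag.RegularSelfMaps

open Pool.Agent.H71.ZD

universe u

/-- Over every field `k` of characteristic `0`, the strong conjecture (Q1), the classical conjecture
for rational self-maps of projective varieties and the classical conjecture for regular self-maps of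
affine varieties are equivalent; more precisely each of the last two in dimension `d + 1` implies
the first in dimension `d`, which implies the last two in dimension `d`. -/
theorem result (k : Type u) [Field k] [CharZero k] :
    (∀ d : ℕ, (StrongConj k d → ClassicalConj k d ∧ RegularConj k d) ∧
      (ClassicalConj k (d + 1) → StrongConj k d) ∧ (RegularConj k (d + 1) → StrongConj k d)) ∧
    ((∀ d, StrongConj k d) ↔ ∀ d, ClassicalConj k d) ∧
    ((∀ d, StrongConj k d) ↔ ∀ d, RegularConj k d) := by
  have h2a : ∀ d, StrongConj k d → ClassicalConj k d := by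
    intro d hs X φ hd hφ
    obtain ⟨x, hx, hxd, -⟩ := hs X φ hd hφ 0 1 (MvPolynomial.isHomogeneous_one _ _) (by
      rw [show X.ev 1 = 1 from map_one _]; exact one_ne_zero)
    exact ⟨x, hx, hxd⟩
  have h2b : ∀ d, StrongConj k d → RegularConj k d := by
    intro d hs Y φ F hd hF hφ
    exact regular_of_strong Y φ F hF (hs (closPV Y) φ hd hφ)
  have h2c : ∀ d, ClassicalConj k (d + 1) → StrongConj k d := by
    intro d hc X φ hd hφ
    exact strong_of_classical X φ hφ fun h hh hno =>
      hc (prodP1 X) (skew X φ h hh) (trdeg_ratFunc hd) hno
  have h2d : ∀ d, RegularConj k (d + 1) → StrongConj k d := by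
    intro d hc X φ hd hφ
    apply strong_of_lifts X φ
    intro e F he hF
    obtain ⟨Φ, hΦ, hno⟩ := lift_regular X φ hφ e he F hF
    exact hc (coneAV X) Φ F (trdeg_ratFunc hd) hΦ hno
  exact ⟨fun d => ⟨fun h => ⟨h2a d h, h2b d h⟩, h2c d, h2d d⟩,
    ⟨fun h d => h2a d (h d), fun h d => h2c d (h (d + 1))⟩,
    ⟨fun h d => h2b d (h d), fun h d => h2d d (h (d + 1))⟩⟩

end Pool.Agent.Results.MP_1e7cf3_ag.RegularSelfMaps
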