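import Pool.Agent.H51.TT.Fin2

/-!
# The strong Zariski dense orbit conjecture for triangular rational maps

Definitions used (files `Pool/Agent/H71/ZD/Defs.lean`, `Pool/Agent/H71/ZD/Trop2.lean`):

* `PV k`: irreducible projective varieties over `k` (closure in `ℙ^ι` of a generic point `[s]`, with
  `s b = 1`, generating the function field `K`); `PV.IsPoint`, `Sends` (the rational map is defined
  at `p` with value `p'`), `IsOrbit`, `IsDense`; `NoInvariants X φ`: `k(X)^f = k`;
  `StrongZDO X φ`: every nonempty basic open set contains a well-defined Zariski-dense orbit;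
* `affPV k σ`: the projective space `ℙ^σ` with affine coordinates `z_i`, `i ∈ σ` (function field
  `k(z_i : i ∈ σ)`, generic point `[1 : z]`); `zf k σ p` is the polynomial function `p(z)`.
-/

set_option autoImplicit false

open MvPolynomial

namespace Pool.Agent.Results.MP_1e7cf3_ag.TriangularMaps

open Pool.Agent.H71.ZD

universe u

/-- `φ = f^*` for the rational map `f = (P_i / Q_i)_i`: `φ(z_i) Q_i = P_i` for all `i`. -/
def IsPullback {k : Type u} [Field k] {n : ℕ} (P Q : Fin n → MvPolynomial (Fin n) k)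
    (φ : (affPV k (Fin n)).K →ₐ[k] (affPV k (Fin n)).K) : Prop :=
  ∀ i, φ (zf k (Fin n) (X i)) * zf k (Fin n) (Q i) = zf k (Fin n) (P i)

/-- `P_i ∈ k[z_0, …, z_i]` for all `i`. -/
def IsTriangular {k : Type u} [Field k] {n : ℕ} (P : Fin n → MvPolynomial (Fin n) k) : Prop :=
  ∀ i, ∀ α ∈ (P i).support, ∀ j, i < j → α j = 0

/-- The degree in `z_i` of `f_i = P_i / Q_i` (in lowest terms). -/
noncomputable def dg {k : Type u} [Field k] {n : ℕ} (P Q : Fin n → MvPolynomial (Fin n) k)
    (i : Fin n) : ℕ :=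
  max (degreeOf i (P i)) (degreeOf i (Q i))

/-- Let `k` be an algebraically closed field of characteristic `0`.
(a) Let `f = (f_0(z_0), f_1(z_0, z_1), …, f_{n-1}(z_0, …, z_{n-1}))` be a dominant triangular
rational self-map of `ℙ^n`, `f_i = P_i / Q_i` in lowest terms, with `k(ℙ^n)^f = k`.  Suppose that
for every `i ≥ 1` the function `f_i` of `z_i` is a Moebius transformation (`dg i ≤ 1`), or has a
superattracting fixed point at infinity (`deg Q_i + 2 ≤ deg P_i`, degrees in `z_i`), or, in case `k`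
is algebraic over `ℚ`, has larger degree than `f_0, …, f_{i-1}`.  There is no condition on `f_0`.
Then every nonempty open set of `ℙ^n` contains a well-defined Zariski-dense orbit.
(b) In particular this holds for every dominant triangular polynomial map
`(F_0(z_0), F_1(z_0, z_1), …, F_{n-1}(z_0, …, z_{n-1}))` without invariant functions. -/
theorem result (k : Type u) [Field k] [IsAlgClosed k] [CharZero k] :
    (∀ (n : ℕ) (P Q : Fin n → MvPolynomial (Fin n) k), (∀ i, Q i ≠ 0) → IsTriangular P →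
      IsTriangular Q → (∀ i, IsRelPrime (P i) (Q i)) →
      (∀ i : Fin n, (i : ℕ) = 0 ∨ dg P Q i ≤ 1 ∨ degreeOf i (Q i) + 2 ≤ degreeOf i (P i) ∨
        (Algebra.IsAlgebraic ℚ k ∧ ∀ j, j < i → dg P Q j < dg P Q i)) →
      ∀ φ : (affPV k (Fin n)).K →ₐ[k] (affPV k (Fin n)).K, IsPullback P Q φ →
        NoInvariants (affPV k (Fin n)) φ → StrongZDO (affPV k (Fin n)) φ) ∧
    ∀ (n : ℕ) (F : Fin n → MvPolynomial (Fin n) k), IsTriangular F →
      ∀ φ : (affPV k (Fin n)).K →ₐ[k] (affPV k (Fin n)).K,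
        (∀ i, φ (zf k (Fin n) (X i)) = zf k (Fin n) (F i)) →
        NoInvariants (affPV k (Fin n)) φ → StrongZDO (affPV k (Fin n)) φ := by
  have h1 : ∀ (n : ℕ) (P Q : Fin n → MvPolynomial (Fin n) k), (∀ i, Q i ≠ 0) → IsTriangular P →
      IsTriangular Q → (∀ i, IsRelPrime (P i) (Q i)) →
      (∀ i : Fin n, (i : ℕ) = 0 ∨ dg P Q i ≤ 1 ∨ degreeOf i (Q i) + 2 ≤ degreeOf i (P i) ∨
        (Algebra.IsAlgebraic ℚ k ∧ ∀ j, j < i → dg P Q j < dg P Q i)) →
      ∀ φ : (affPV k (Fin n)).K →ₐ[k] (affPV k (Fin n)).K, IsPullback P Q φ →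
        NoInvariants (affPV k (Fin n)) φ → StrongZDO (affPV k (Fin n)) φ := by
    intro n P Q hQ hP hQt hPQ hlev φ hφ hno
    refine Pool.Agent.H51.TT.strong_triangular2 n P Q hQ hP hQt hPQ (fun i => ?_) φ hφ hno
    rcases hlev i with h | h | h | h
    · exact Or.inr (Or.inr (Or.inl h))
    · exact Or.inl h
    · exact Or.inr (Or.inl h)
    · exact Or.inr (Or.inr (Or.inr h))
  refine ⟨h1, fun n F hF φ hφ hno => ?_⟩
  have hdeg : ∀ i : Fin n, degreeOf i (1 : MvPolynomial (Fin n) k) = 0 := fun i => by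
    rw [← MvPolynomial.C_1, MvPolynomial.degreeOf_C]
  refine h1 n F (fun _ => 1) (fun _ => one_ne_zero) hF ?_ (fun i => isRelPrime_one_right) ?_ φ ?_
    hno
  · intro i α hα j hij
    rw [← MvPolynomial.C_1] at hα
    have h2 := MvPolynomial.support_monomial_subset hα
    rw [Finset.mem_singleton] at h2
    rw [h2]; rfl
  · intro i
    simp only [dg, hdeg]
    by_cases h : degreeOf i (F i) ≤ 1
    · right; left; omega
    · right; right; left; omega
  · intro i
    rw [hφ i]
    have h3 : zf k (Fin n) (1 : MvPolynomial (Fin n) k) = 1 := map_one _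
    rw [h3, mul_one]

end Pool.Agent.Results.MP_1e7cf3_ag.TriangularMaps
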