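import Pool.Agent.H71.ZD.Trop4

/-!
# A tropical criterion for the strong Zariski dense orbit conjecture

Definitions (files `Pool/Agent/H71/ZD/Defs.lean`, `Trop1.lean`, `Trop2.lean`, `Trop3.lean`):

* `PV k`: irreducible projective varieties over `k` (closure in `ℙ^ι` of a generic point `[s]`, with
  `s b = 1`, generating the function field `K`); `PV.IsPoint`, `Sends` (the rational map is defined
  at `p` with value `p'`), `IsOrbit`, `IsDense`; `StrongZDO X φ`: every nonempty basic open set
  contains a well-defined Zariski-dense orbit;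
* `affPV k σ`: the projective space `ℙ^σ` with affine coordinates `z_i`, `i ∈ σ` (function field
  `k(z_i : i ∈ σ)`, generic point `[1 : z]`); `zf k σ p` is the polynomial function `p(z)`;
* `dot α w = ∑ α_i w_i`; `UniqueMin`, `IsTropicalOrbit`, `IsGenericSeq`.
-/

set_option autoImplicit false

open MvPolynomial

namespace Pool.Agent.Results.MP_1e7cf3_ag.TropicalOrbits

open Pool.Agent.H71.ZD

universe u

/-- `φ = f^*` for the rational map `f = (P_i / Q_i)_i`: `φ(z_i) Q_i = P_i` for all `i`. -/
def IsPullback {k : Type u} [Field k] {σ : Type} [Fintype σ] (P Q : σ → MvPolynomial σ k)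
    (φ : (affPV k σ).K →ₐ[k] (affPV k σ).K) : Prop :=
  ∀ i, φ (zf k σ (X i)) * zf k σ (Q i) = zf k σ (P i)

/-- The rational self-map `f = (P_i / Q_i)_i` of `ℙ^σ` is dominant and the conclusion of the strong
Zariski dense orbit conjecture holds for it. -/
def Holds {k : Type u} [Field k] {σ : Type} [Fintype σ] (P Q : σ → MvPolynomial σ k) : Prop :=
  (∃ φ : (affPV k σ).K →ₐ[k] (affPV k σ).K, IsPullback P Q φ) ∧
  ∀ φ : (affPV k σ).K →ₐ[k] (affPV k σ).K, IsPullback P Q φ → StrongZDO (affPV k σ) φ

/-- Let `k` be a field of characteristic `0`.  (a) A rational self-map `f = (P_i / Q_i)_i` of `ℙ^n`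
whose tropicalisation (for the trivial valuation) has an integral orbit that avoids the corner loci
of all `P_i`, `Q_i` and meets every affine hyperplane in a finite set is dominant and satisfies the
strong Zariski dense orbit conjecture.  (b) This applies to every triangular rational map:
`P_i, Q_i ∈ k[z_0, …, z_i]` nonzero, with degrees `d_i = deg_{z_i} P_i - deg_{z_i} Q_i` such that
`2 ≤ d_0 < d_1 < ⋯ < d_{n-1}`. -/
theorem result (k : Type u) [Field k] [CharZero k] :
    (∀ (σ : Type) [Fintype σ] (P Q : σ → MvPolynomial σ k) (w : ℕ → σ → ℤ),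
      IsTropicalOrbit P Q w → IsGenericSeq w → Holds P Q) ∧
    ∀ (n : ℕ) (P Q : Fin n → MvPolynomial (Fin n) k), (∀ i, P i ≠ 0) → (∀ i, Q i ≠ 0) →
      (∀ i, ∀ α ∈ (P i).support, ∀ j, i < j → α j = 0) →
      (∀ i, ∀ α ∈ (Q i).support, ∀ j, i < j → α j = 0) →
      (∀ i, degreeOf i (Q i) + 2 ≤ degreeOf i (P i)) →
      (∀ i j, i < j →
        degreeOf i (P i) + degreeOf j (Q j) < degreeOf j (P j) + degreeOf i (Q i)) →
      Holds P Q := by
  have h1 : ∀ (σ : Type) [Fintype σ] (P Q : σ → MvPolynomial σ k) (w : ℕ → σ → ℤ),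
      IsTropicalOrbit P Q w → IsGenericSeq w → Holds P Q := by
    intro σ _ P Q w hw hgen
    exact tropical_criterion P Q w hw hgen
  refine ⟨h1, fun n P Q hP hQ hPi hQi hd2 hdm => ?_⟩
  obtain ⟨w, hw, hgen⟩ := triangular P Q hP hQ hPi hQi hd2 hdm
  exact h1 (Fin n) P Q w hw hgen

end Pool.Agent.Results.MP_1e7cf3_ag.TropicalOrbits
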